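import Pool.Agent.Lib.MP_3240be_co.R21.AE1
import Pool.Agent.Lib.MP_3240be_co.H56.Rig
import Pool.Agent.Lib.MP_3240be_co.LEAF.Sp

/-!
# MP_3240be_co, T4 (findings 4835, 4844, 4854): row R7 for the property `PS` (helper21)
-/

set_option autoImplicit false

namespace MP3240R21

open Finset Function MP3240SSL

section
variable {V M Y : Type}

/-- `w` is separated from `x` and `y` in the classes of `k`. -/
def Sepd {r : ℕ} (U : Set V) (Γ : V → V → Prop) (k : V → Fin r) (y x w : V) : Prop :=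
  ∃ D : Set V, w ∈ D ∧ x ∉ D ∧ y ∉ D ∧
    ∀ p q, p ∈ U → q ∈ U → p ∈ D → Γ p q → k p = k q → q ∈ D

/-- Property (S) on `U`. -/
def SpO (r : ℕ) (U : Set V) (Γ : V → V → Prop) : Prop :=
  ∀ y x w, y ∈ U → x ∈ U → w ∈ U → Γ x y → Γ x w → y ≠ w → ∃ k : V → Fin r,
    FoOn U (fun p q => Γ p q ∧ k p = k q) ∧ Sepd U Γ k y x w

/-- Both edges of the path in the first graph. -/
theorem sepd_one {r : ℕ} {U : Set V} {Γ1 Γ2 : V → V → Prop} {A1 A2 : Set V}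
    (hA1 : ∀ x y, Γ1 x y → x ∈ A1 ∧ y ∈ A1) (hA2 : ∀ x y, Γ2 x y → x ∈ A2 ∧ y ∈ A2)
    (hs1 : ∀ x y, Γ1 x y → Γ1 y x) (a b : V)
    (hA : ∀ x, x ∈ A1 → x ∈ A2 → x = a ∨ x = b) (hab : a = b ∨ (Γ1 a b ∧ Γ2 a b))
    {k k1 k2 : V → Fin r}
    (p1 : ∀ x y, x ∈ U → y ∈ U → x ∈ A1 → y ∈ A1 → (k x = k y ↔ k1 x = k1 y))
    (p2 : ∀ x y, x ∈ U → y ∈ U → x ∈ A2 → y ∈ A2 → (k x = k y ↔ k2 x = k2 y))
    {y x w : V} (hy : y ∈ U) (hx : x ∈ U) (hyA : y ∈ A1) (hxA : x ∈ A1) (hwA : w ∈ A1)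
    (h : Sepd U Γ1 k1 y x w) : Sepd U (fun p q => Γ1 p q ∨ Γ2 p q) k y x w := by
  obtain ⟨D, h1, h2, h3, h4⟩ := h
  -- the second part of the new set meets `A1` in `D` only
  have hcons : ∀ z c, z ∈ U → z ∈ A1 → z ∈ A2 → c ∈ U → c ∈ A1 → c ∈ A2 → c ∈ D →
      k2 z = k2 c → z ∈ D := by
    intro z c hz hz1 hz2 hc hc1 hc2 hcD he
    by_cases hzc : z = c
    · rw [hzc]; exact hcD
    · have hk1 : k1 c = k1 z :=
        (p1 c z hc hz hc1 hz1).1 ((p2 c z hc hz hc2 hz2).2 he.symm)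
      rcases hab with rfl | ⟨g1, g2⟩
      · exact (hzc (by
          rcases hA z hz1 hz2 with e1 | e1 <;> rcases hA c hc1 hc2 with e2 | e2 <;>
            rw [e1, e2])).elim
      · rcases hA z hz1 hz2 with e1 | e1 <;> rcases hA c hc1 hc2 with e2 | e2
        · exact (hzc (by rw [e1, e2])).elim
        · refine h4 c z hc hz hcD ?_ hk1
          rw [e1, e2]
          exact hs1 _ _ g1
        · refine h4 c z hc hz hcD ?_ hk1
          rw [e1, e2]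
          exact g1
        · exact (hzc (by rw [e1, e2])).elim
  refine ⟨{z | (z ∈ A1 ∧ z ∈ D) ∨ (z ∈ A2 ∧ ∃ c, c ∈ U ∧ c ∈ A1 ∧ c ∈ A2 ∧ c ∈ D ∧
    k2 z = k2 c)}, Or.inl ⟨hwA, h1⟩, ?_, ?_, ?_⟩
  · rintro (⟨-, h5⟩ | ⟨h5, c, c1, c2, c3, c4, c5⟩)
    · exact h2 h5
    · exact h2 (hcons x c hx hxA h5 c1 c2 c3 c4 c5)
  · rintro (⟨-, h5⟩ | ⟨h5, c, c1, c2, c3, c4, c5⟩)
    · exact h3 h5
    · exact h3 (hcons y c hy hyA h5 c1 c2 c3 c4 c5)
  · rintro p q hp hq hpD (hpq | hpq) hkpq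
    · obtain ⟨hp1, hq1⟩ := hA1 p q hpq
      have hpD' : p ∈ D := by
        rcases hpD with ⟨-, h5⟩ | ⟨h5, c, c1, c2, c3, c4, c5⟩
        · exact h5
        · exact hcons p c hp hp1 h5 c1 c2 c3 c4 c5
      exact Or.inl ⟨hq1, h4 p q hp hq hpD' hpq ((p1 p q hp hq hp1 hq1).1 hkpq)⟩
    · obtain ⟨hp2, hq2⟩ := hA2 p q hpq
      have hk2 := (p2 p q hp hq hp2 hq2).1 hkpq
      rcases hpD with ⟨h5, h6⟩ | ⟨h5, c, c1, c2, c3, c4, c5⟩
      · exact Or.inr ⟨hq2, p, hp, h5, hp2, h6, hk2.symm⟩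
      · exact Or.inr ⟨hq2, c, c1, c2, c3, c4, hk2.symm.trans c5⟩

/-- The separated vertex is in the second graph only, its component does not meet the first. -/
theorem sepd_two {r : ℕ} {U : Set V} {Γ1 Γ2 : V → V → Prop} {A1 A2 : Set V}
    (hA1 : ∀ x y, Γ1 x y → x ∈ A1 ∧ y ∈ A1) (hA2 : ∀ x y, Γ2 x y → x ∈ A2 ∧ y ∈ A2)
    {k k2 : V → Fin r}
    (p2 : ∀ x y, x ∈ U → y ∈ U → x ∈ A2 → y ∈ A2 → (k x = k y ↔ k2 x = k2 y))
    {y x w : V} (hyA : y ∈ A1) (hxA : x ∈ A1) (hy : y ∈ U) (hx : x ∈ U) (hwA : w ∈ A2)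
    {D : Set V} (h1 : w ∈ D) (h4 : ∀ p q, p ∈ U → q ∈ U → p ∈ D → Γ2 p q → k2 p = k2 q → q ∈ D)
    (h5 : ∀ z, z ∈ U → z ∈ A1 → z ∈ A2 → z ∉ D) :
    Sepd U (fun p q => Γ1 p q ∨ Γ2 p q) k y x w := by
  refine ⟨{z | z ∈ A2 ∧ z ∈ D}, ⟨hwA, h1⟩, ?_, ?_, ?_⟩
  · rintro ⟨h6, h7⟩
    exact h5 x hx hxA h6 h7
  · rintro ⟨h6, h7⟩
    exact h5 y hy hyA h6 h7
  · rintro p q hp hq ⟨hp2, hpD⟩ (hpq | hpq) hkpq
    · exact (h5 p hp (hA1 p q hpq).1 hp2 hpD).elim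
    · have hq2 := (hA2 p q hpq).2
      exact ⟨hq2, h4 p q hp hq hpD hpq ((p2 p q hp hq hp2 hq2).1 hkpq)⟩

theorem Sepd.comm {r : ℕ} {U : Set V} {Γ1 Γ2 : V → V → Prop} {k : V → Fin r} {y x w : V}
    (h : Sepd U (fun p q => Γ2 p q ∨ Γ1 p q) k y x w) :
    Sepd U (fun p q => Γ1 p q ∨ Γ2 p q) k y x w := by
  obtain ⟨D, h1, h2, h3, h4⟩ := h
  exact ⟨D, h1, h2, h3, fun p q hp hq hpD hpq hk => h4 p q hp hq hpD hpq.symm hk⟩

theorem spo_bip {r : ℕ} (hr : 2 ≤ r) (U : Set V) (Γ : V → V → Prop) (f : V → Bool)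
    (h : ∀ x y, Γ x y → f x ≠ f y) : SpO r U Γ := by
  classical
  intro y x w _ _ _ hxy hxw hyw
  set c : Bool → Fin r := fun e => if e = true then ⟨1, by omega⟩ else ⟨0, by omega⟩ with hc
  have hcinj : Injective c := by
    intro e e' he
    cases e <;> cases e' <;> simp [hc] at he ⊢
  have hne : ∀ x y, Γ x y → c (f x) ≠ c (f y) := fun x y hxy he => h x y hxy (hcinj he)
  refine ⟨fun x => c (f x), fo_empty fun x y hxy => hne x y hxy.1 hxy.2, {w}, rfl, ?_, ?_, ?_⟩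
  · intro hxw'
    rw [Set.mem_singleton_iff] at hxw'
    subst hxw'
    exact h _ _ hxw rfl
  · exact hyw
  · intro p q _ _ _ hpq hk
    exact (hne p q hpq hk).elim

theorem spo_bod {δ : M → Y → V} {P : SimpleGraph Y} {r : ℕ} (hr : 2 ≤ r) (m : M)
    (hδ : Injective (δ m)) (U : Set V) (h : SpO r {t | δ m t ∈ U} fun t t' => P.Adj t t') :
    SpO r U (Bod δ P m) := by
  classical
  rintro y x w hy hx hw ⟨tx, ty, rfl, rfl, h1⟩ ⟨tx', tw, he, rfl, h2⟩ hyw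
  have := hδ he
  subst this
  obtain ⟨k', hk', D, d1, d2, d3, d4⟩ := h ty tx tw hy hx hw h1 h2 fun h => hyw (by rw [h])
  refine ⟨Function.extend (δ m) k' fun _ => ⟨0, by omega⟩, ?_, δ m '' D, ⟨tw, d1, rfl⟩, ?_, ?_,
    ?_⟩
  · refine hk'.map (δ m) hδ (fun t ht => ht) ?_
    rintro x y ⟨⟨t, t', rfl, rfl, h1⟩, h2⟩
    rw [hδ.extend_apply, hδ.extend_apply] at h2
    exact ⟨t, t', rfl, rfl, h1, h2⟩
  · rintro ⟨t, ht, he'⟩
    rw [hδ he'] at ht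
    exact d2 ht
  · rintro ⟨t, ht, he'⟩
    rw [hδ he'] at ht
    exact d3 ht
  · rintro p q hp hq ⟨t, ht, rfl⟩ ⟨t1, t2, e1, rfl, h3⟩ hk
    have := hδ e1
    subst this
    rw [hδ.extend_apply, hδ.extend_apply] at hk
    exact ⟨t2, d4 t t2 hp hq ht h3 hk, rfl⟩

/-- Row R7 for (P) and (S): tree graphs with good bodies are good. -/
theorem TD_spo {δ : M → Y → V} {P : SimpleGraph Y} (hδ : ∀ m, Injective (δ m)) {r : ℕ}
    (hr : 2 ≤ r) {S : Set M} {Γ : V → V → Prop} {A : Set V} (h : TD δ P S Γ A) (U : Set V)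
    (hb : ∀ m ∈ S, PRo r {t | δ m t ∈ U} fun t t' => P.Adj t t')
    (hb' : ∀ m ∈ S, SpO r {t | δ m t ∈ U} fun t t' => P.Adj t t') : SpO r U Γ := by
  induction h with
  | bod m => exact spo_bod hr m (hδ m) U (hb' m rfl)
  | bip Γ A f h hA hs => exact spo_bip hr U Γ f h
  | @glu S1 S2 Γ1 Γ2 A1 A2 a b h1 h2 hd hA hab ih1 ih2 =>
    have i1 := TD_pro hδ hr h1 U fun m hm => hb m (Or.inl hm)
    have i2 := TD_pro hδ hr h2 U fun m hm => hb m (Or.inr hm)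
    have j1 := ih1 (fun m hm => hb m (Or.inl hm)) fun m hm => hb' m (Or.inl hm)
    have j2 := ih2 (fun m hm => hb m (Or.inr hm)) fun m hm => hb' m (Or.inr hm)
    have m2 : ∀ k1 : V → Fin r, ∃ k2 : V → Fin r, (FoOn U fun x y => Γ2 x y ∧ k2 x = k2 y) ∧
        (a ∈ U → b ∈ U → (k1 a = k1 b ↔ k2 a = k2 b)) := by
      intro k1
      rcases hab with rfl | ⟨h3, h4⟩
      · obtain ⟨k2, hk2⟩ := i2.1
        exact ⟨k2, hk2, fun _ _ => by simp⟩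
      · by_cases hU : a ∈ U ∧ b ∈ U
        · obtain ⟨k2, hk2, h5⟩ := i2.2 a b hU.1 hU.2 h4 (decide (k1 a = k1 b))
          exact ⟨k2, hk2, fun _ _ => by rw [h5, decide_eq_true_iff]⟩
        · obtain ⟨k2, hk2⟩ := i2.1
          exact ⟨k2, hk2, fun ha hb => (hU ⟨ha, hb⟩).elim⟩
    have m1 : ∀ k2 : V → Fin r, ∃ k1 : V → Fin r, (FoOn U fun x y => Γ1 x y ∧ k1 x = k1 y) ∧
        (a ∈ U → b ∈ U → (k1 a = k1 b ↔ k2 a = k2 b)) := by
      intro k2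
      rcases hab with rfl | ⟨h3, h4⟩
      · obtain ⟨k1, hk1⟩ := i1.1
        exact ⟨k1, hk1, fun _ _ => by simp⟩
      · by_cases hU : a ∈ U ∧ b ∈ U
        · obtain ⟨k1, hk1, h5⟩ := i1.2 a b hU.1 hU.2 h3 (decide (k2 a = k2 b))
          exact ⟨k1, hk1, fun _ _ => by rw [h5, decide_eq_true_iff]⟩
        · obtain ⟨k1, hk1⟩ := i1.1
          exact ⟨k1, hk1, fun ha hb => (hU ⟨ha, hb⟩).elim⟩
    have hab' : a = b ∨ (Γ2 a b ∧ Γ1 a b) := hab.imp id fun h => ⟨h.2, h.1⟩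
    have hA' : ∀ x, x ∈ A2 → x ∈ A1 → x = a ∨ x = b := fun x hx hx' => hA x hx' hx
    -- a mixed path: the end `w` in the second graph; `c` is the other gluing vertex
    have mix : ∀ (Γ1 Γ2 : V → V → Prop) (A1 A2 : Set V),
        (∀ x y, Γ1 x y → x ∈ A1 ∧ y ∈ A1) → (∀ x y, Γ2 x y → x ∈ A2 ∧ y ∈ A2) →
        (∀ x y, Γ1 x y → Γ1 y x) → (∀ x y, Γ2 x y → Γ2 y x) →
        (∀ x, x ∈ A1 → x ∈ A2 → x = a ∨ x = b) →
        (a = b ∨ (Γ1 a b ∧ Γ2 a b)) → (PRo r U Γ2) → (SpO r U Γ2) →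
        ∀ y x w, y ∈ U → x ∈ U → w ∈ U → Γ1 x y → Γ2 x w → ¬ Γ1 x w → y ≠ w →
          ∃ (k2 : V → Fin r) (D : Set V), (FoOn U fun p q => Γ2 p q ∧ k2 p = k2 q) ∧ w ∈ D ∧
            (∀ p q, p ∈ U → q ∈ U → p ∈ D → Γ2 p q → k2 p = k2 q → q ∈ D) ∧
            ∀ z, z ∈ U → z ∈ A1 → z ∈ A2 → z ∉ D := by
      intro Γ1 Γ2 A1 A2 hA1 hA2 hs1 hs2 hA hab i2 j2 y x w hy hx hw hxy hxw hnxw hyw
      have hx12 := hA x (hA1 x y hxy).1 (hA2 x w hxw).1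
      by_cases hc : ∃ c, c ∈ U ∧ c ∈ A1 ∧ c ∈ A2 ∧ c ≠ x
      · obtain ⟨c, hcU, hc1, hc2, hcx⟩ := hc
        have hc12 := hA c hc1 hc2
        have hab2 : Γ1 a b ∧ Γ2 a b := by
          rcases hab with rfl | h
          · exfalso
            rcases hx12 with e1 | e1 <;> rcases hc12 with e2 | e2 <;>
              exact hcx (e2.trans e1.symm)
          · exact h
        have hxc2 : Γ2 x c := by
          rcases hx12 with e1 | e1 <;> rcases hc12 with e2 | e2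
          · exact (hcx (e2.trans e1.symm)).elim
          · rw [e1, e2]; exact hab2.2
          · rw [e1, e2]; exact hs2 _ _ hab2.2
          · exact (hcx (e2.trans e1.symm)).elim
        have hcw : c ≠ w := by
          rintro rfl
          apply hnxw
          rcases hx12 with e1 | e1 <;> rcases hc12 with e2 | e2
          · exact (hcx (e2.trans e1.symm)).elim
          · rw [e1, e2]; exact hab2.1
          · rw [e1, e2]; exact hs1 _ _ hab2.1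
          · exact (hcx (e2.trans e1.symm)).elim
        obtain ⟨k2, hk2, D, d1, d2, d3, d4⟩ := j2 c x w hcU hx hw hxc2 hxw hcw
        refine ⟨k2, D, hk2, d1, d4, fun z hz hz1 hz2 hzD => ?_⟩
        have hz12 := hA z hz1 hz2
        rcases hx12 with e1 | e1 <;> rcases hc12 with e2 | e2 <;> rcases hz12 with e3 | e3
        · exact d2 (by rw [e1, ← e3]; exact hzD)
        · exact hcx (e2.trans e1.symm)
        · exact d2 (by rw [e1, ← e3]; exact hzD)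
        · exact d3 (by rw [e2, ← e3]; exact hzD)
        · exact d3 (by rw [e2, ← e3]; exact hzD)
        · exact d2 (by rw [e1, ← e3]; exact hzD)
        · exact hcx (e2.trans e1.symm)
        · exact d2 (by rw [e1, ← e3]; exact hzD)
      · push Not at hc
        obtain ⟨k2, hk2, h5⟩ := i2.2 x w hx hw hxw false
        simp only [Bool.false_eq_true, iff_false] at h5
        refine ⟨k2, {z | k2 z = k2 w}, hk2, rfl, fun p q _ _ hp _ hpq => hpq.symm.trans hp,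
          fun z hz hz1 hz2 hzD => ?_⟩
        have hzx : z = x := hc z hz hz1 hz2
        subst hzx
        exact h5 hzD
    -- both edges in one of the graphs
    have c1 : ∀ y x w, y ∈ U → x ∈ U → w ∈ U → Γ1 x y → Γ1 x w → y ≠ w → ∃ k : V → Fin r,
        FoOn U (fun p q => (Γ1 p q ∨ Γ2 p q) ∧ k p = k q) ∧
          Sepd U (fun p q => Γ1 p q ∨ Γ2 p q) k y x w := by
      intro y x w hy hx hw hxy hxw hyw
      obtain ⟨k1, hk1, hsep⟩ := j1 y x w hy hx hw hxy hxw hyw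
      obtain ⟨k2, hk2, hp⟩ := m2 k1
      obtain ⟨k, hk, p1, p2⟩ :=
        glue_step h1.mem h2.mem h1.symm h2.symm a b hA hab k1 k2 hk1 hk2 hp
      exact ⟨k, hk, sepd_one h1.mem h2.mem h1.symm a b hA hab p1 p2 hy hx (h1.mem _ _ hxy).2
        (h1.mem _ _ hxy).1 (h1.mem _ _ hxw).2 hsep⟩
    have c2 : ∀ y x w, y ∈ U → x ∈ U → w ∈ U → Γ2 x y → Γ2 x w → y ≠ w → ∃ k : V → Fin r,
        FoOn U (fun p q => (Γ1 p q ∨ Γ2 p q) ∧ k p = k q) ∧
          Sepd U (fun p q => Γ1 p q ∨ Γ2 p q) k y x w := by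
      intro y x w hy hx hw hxy hxw hyw
      obtain ⟨k2, hk2, hsep⟩ := j2 y x w hy hx hw hxy hxw hyw
      obtain ⟨k1, hk1, hp⟩ := m1 k2
      obtain ⟨k, hk, p1, p2⟩ :=
        glue_step h1.mem h2.mem h1.symm h2.symm a b hA hab k1 k2 hk1 hk2 hp
      exact ⟨k, hk, Sepd.comm (sepd_one h2.mem h1.mem h2.symm a b hA' hab' p2 p1 hy hx
        (h2.mem _ _ hxy).2 (h2.mem _ _ hxy).1 (h2.mem _ _ hxw).2 hsep)⟩
    rintro y x w hy hx hw (hxy | hxy) (hxw | hxw) hyw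
    · exact c1 y x w hy hx hw hxy hxw hyw
    · by_cases h3 : Γ1 x w
      · exact c1 y x w hy hx hw hxy h3 hyw
      · obtain ⟨k2, D, hk2, d1, d2, d3⟩ := mix Γ1 Γ2 A1 A2 h1.mem h2.mem h1.symm h2.symm hA hab
          i2 j2 y x w hy hx hw hxy hxw h3 hyw
        obtain ⟨k1, hk1, hp⟩ := m1 k2
        obtain ⟨k, hk, p1, p2⟩ :=
          glue_step h1.mem h2.mem h1.symm h2.symm a b hA hab k1 k2 hk1 hk2 hp
        exact ⟨k, hk, sepd_two h1.mem h2.mem p2 (h1.mem _ _ hxy).2 (h1.mem _ _ hxy).1 hy hx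
          (h2.mem _ _ hxw).2 d1 d2 d3⟩
    · by_cases h3 : Γ2 x w
      · exact c2 y x w hy hx hw hxy h3 hyw
      · obtain ⟨k1, D, hk1, d1, d2, d3⟩ := mix Γ2 Γ1 A2 A1 h2.mem h1.mem h2.symm h1.symm hA' hab'
          i1 j1 y x w hy hx hw hxy hxw h3 hyw
        obtain ⟨k2, hk2, hp⟩ := m2 k1
        obtain ⟨k, hk, p1, p2⟩ :=
          glue_step h1.mem h2.mem h1.symm h2.symm a b hA hab k1 k2 hk1 hk2 hp
        exact ⟨k, hk, Sepd.comm (sepd_two h2.mem h1.mem p1 (h2.mem _ _ hxy).2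
          (h2.mem _ _ hxy).1 hy hx (h1.mem _ _ hxw).2 d1 d2 d3)⟩
    · exact c2 y x w hy hx hw hxy hxw hyw

/-! ### The interface of `LEAF/Sp` -/

open MP3240LEAF

theorem leaf_fo_iff {G : V → V → Prop} : Fo G ↔ FoOn Set.univ G := by
  constructor
  · intro h S _ hS
    exact h S hS
  · intro h S hS
    exact h S (fun _ _ => trivial) hS

theorem leaf_pr_iff {r : ℕ} {G : SimpleGraph V} : PR r G ↔ PRo r Set.univ G.Adj := by
  unfold PR PRo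
  simp only [leaf_fo_iff, Set.mem_univ, forall_true_left]

theorem leaf_sp_iff {r : ℕ} {G : SimpleGraph V} : Sp r G ↔ SpO r Set.univ G.Adj := by
  unfold Sp SpO Sepd
  simp only [leaf_fo_iff, Set.mem_univ, forall_true_left]

/-- Extension of a colouring of a subset. -/
theorem ext_col {r : ℕ} (hr : 2 ≤ r) (P : SimpleGraph Y) (X : Set Y) (k' : X → Fin r)
    (hk' : FoOn Set.univ fun x y => (P.induce X).Adj x y ∧ k' x = k' y) :
    ∃ k : Y → Fin r, (FoOn X fun x y => P.Adj x y ∧ k x = k y) ∧ ∀ t : X, k t.1 = k' t := by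
  classical
  have hk : ∀ t : X, Function.extend Subtype.val k' (fun _ => (⟨0, by omega⟩ : Fin r)) t.1 =
      k' t := fun t => Subtype.val_injective.extend_apply _ _ t
  refine ⟨Function.extend Subtype.val k' fun _ => ⟨0, by omega⟩, ?_, hk⟩
  intro S hS hne
  have h1 := hk'.map (U := X) (G := fun x y => x ∈ X ∧ y ∈ X ∧ P.Adj x y ∧
    Function.extend Subtype.val k' (fun _ => (⟨0, by omega⟩ : Fin r)) x =
    Function.extend Subtype.val k' (fun _ => (⟨0, by omega⟩ : Fin r)) y) Subtype.val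
    Subtype.val_injective (fun _ _ => trivial) (by
      rintro x y ⟨hx, hy, h3, h4⟩
      refine ⟨⟨x, hx⟩, ⟨y, hy⟩, rfl, rfl, h3, ?_⟩
      rw [← hk ⟨x, hx⟩, ← hk ⟨y, hy⟩]
      exact h4) S hS hne
  refine le_trans (Nat.add_le_add_right (ec_mono fun x hx y hy h => ?_) 2) h1
  exact ⟨hS x hx, hS y hy, h.1, h.2⟩

theorem pro_induce {r : ℕ} (hr : 2 ≤ r) (P : SimpleGraph Y) (X : Set Y)
    (h : PR r (P.induce X)) : PRo r X P.Adj := by
  rw [leaf_pr_iff] at h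
  obtain ⟨⟨k', hk'⟩, h2⟩ := h
  refine ⟨?_, ?_⟩
  · obtain ⟨k, hk, -⟩ := ext_col hr P X k' hk'
    exact ⟨k, hk⟩
  · intro u v hu hv huv e
    obtain ⟨k'', hk'', h3⟩ := h2 ⟨u, hu⟩ ⟨v, hv⟩ trivial trivial huv e
    obtain ⟨k, hk, h4⟩ := ext_col hr P X k'' hk''
    exact ⟨k, hk, by rw [h4 ⟨u, hu⟩, h4 ⟨v, hv⟩]; exact h3⟩

theorem spo_induce {r : ℕ} (hr : 2 ≤ r) (P : SimpleGraph Y) (X : Set Y)
    (h : Sp r (P.induce X)) : SpO r X P.Adj := by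
  rw [leaf_sp_iff] at h
  intro y x w hy hx hw hxy hxw hyw
  obtain ⟨k', hk', D, d1, d2, d3, d4⟩ := h ⟨y, hy⟩ ⟨x, hx⟩ ⟨w, hw⟩ trivial trivial trivial hxy
    hxw fun h => hyw (congrArg Subtype.val h)
  obtain ⟨k, hk, h4⟩ := ext_col hr P X k' hk'
  refine ⟨k, hk, Subtype.val '' D, ⟨_, d1, rfl⟩, ?_, ?_, ?_⟩
  · rintro ⟨⟨t, ht⟩, htD, rfl⟩
    exact d2 htD
  · rintro ⟨⟨t, ht⟩, htD, rfl⟩
    exact d3 htD
  · rintro p q hp hq ⟨t, htD, rfl⟩ hpq hk2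
    refine ⟨⟨q, hq⟩, d4 t ⟨q, hq⟩ trivial trivial htD hpq ?_, rfl⟩
    rw [← h4 t, ← h4 ⟨q, hq⟩]
    exact hk2

/-- Row R7: a graph `M` embedded in a tree graph over a sparse system of copies of `P` has (P) and
(S) if the parts of `P` used in the bodies have. -/
theorem r7_ps {r : ℕ} (hr : 2 ≤ r) {P : SimpleGraph Y} {M : SimpleGraph V} {Z : Sys P}
    {S : Set Z.M} {Γ : Z.V → Z.V → Prop} {A : Set Z.V} {F : V → Z.V}
    (h : MP3240R.Is1 M Z S Γ A F) (hb : ∀ m ∈ S, PS r (P.induce {t | ∃ u, F u = Z.δ m t})) :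
    PS r M := by
  have h0 : ∀ m ∈ S, PRo r {t | Z.δ m t ∈ Set.range F} fun t t' => P.Adj t t' := fun m hm =>
    pro_induce hr P _ (hb m hm).1
  have h1 := TD_pro (fun m => Z.inj m) hr h.td (Set.range F) h0
  have h2 := TD_spo (fun m => Z.inj m) hr h.td (Set.range F) h0 fun m hm =>
    spo_induce hr P _ (hb m hm).2
  have hF : ∀ u, F u ∈ Set.range F := fun u => ⟨u, rfl⟩
  refine ⟨?_, ?_⟩
  · rw [leaf_pr_iff]
    obtain ⟨⟨k, hk⟩, h3⟩ := h1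
    refine ⟨⟨fun x => k (F x), hk.comap F h.inj (fun x _ => hF x) fun x y h' =>
      ⟨h.adj x y h'.1, h'.2⟩⟩, fun u v _ _ huv e => ?_⟩
    obtain ⟨k', hk', h4⟩ := h3 (F u) (F v) (hF u) (hF v) (h.adj u v huv) e
    exact ⟨fun x => k' (F x), hk'.comap F h.inj (fun x _ => hF x) fun x y h' =>
      ⟨h.adj x y h'.1, h'.2⟩, h4⟩
  · rw [leaf_sp_iff]
    intro y x w _ _ _ hxy hxw hyw
    obtain ⟨k, hk, D, d1, d2, d3, d4⟩ := h2 (F y) (F x) (F w) (hF y) (hF x) (hF w)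
      (h.adj _ _ hxy) (h.adj _ _ hxw) fun he => hyw (h.inj he)
    exact ⟨fun x => k (F x), hk.comap F h.inj (fun x _ => hF x) fun x y h' =>
      ⟨h.adj x y h'.1, h'.2⟩, F ⁻¹' D, d1, d2, d3, fun p q _ _ hp hpq hk2 =>
      d4 (F p) (F q) (hF p) (hF q) hp (h.adj p q hpq) hk2⟩

end

end MP3240R21
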