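import Pool.Agent.Lib.MP_3240be_co.R21.Fo
import Pool.Agent.Lib.MP_3240be_co.SSL8.Td

/-!
# MP_3240be_co, T4 (findings 4835, 4844): row R7 (helper21)

Graphs embedded in tree graphs (`TD`) whose bodies are good (partition into `r` forests, with both
patterns at every edge) are good.
-/

set_option autoImplicit false

namespace MP3240R21

open Finset Function MP3240SSL

section
variable {V M Y : Type}

/-- Partition of `U` into `r` forests, both patterns at every edge. -/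
def PRo (r : ℕ) (U : Set V) (Γ : V → V → Prop) : Prop :=
  (∃ k : V → Fin r, FoOn U fun x y => Γ x y ∧ k x = k y) ∧
    ∀ u v, u ∈ U → v ∈ U → Γ u v → ∀ e : Bool, ∃ k : V → Fin r,
      FoOn U (fun x y => Γ x y ∧ k x = k y) ∧ (k u = k v ↔ e = true)

theorem FoOn.map {U' : Set Y} {G' : Y → Y → Prop} (h : FoOn U' G') (F : Y → V) (hF : Injective F)
    {U : Set V} (hU : ∀ t, F t ∈ U → t ∈ U') {G : V → V → Prop}
    (hG : ∀ x y, G x y → ∃ t t', x = F t ∧ y = F t' ∧ G' t t') : FoOn U G := by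
  classical
  intro S hS hne
  set T : Finset Y := S.preimage F hF.injOn with hT
  have hTS : T.card ≤ S.card := by
    refine card_le_card_of_injOn F ?_ hF.injOn
    intro t ht
    have ht' := mem_coe.1 ht
    rw [hT, mem_preimage] at ht'
    exact mem_coe.2 ht'
  have h2 : ec G S ≤ ec G' T := by
    unfold ec
    have hsub : (S ×ˢ S).filter (fun q => G q.1 q.2) ⊆
        ((T ×ˢ T).filter fun q => G' q.1 q.2).map ⟨fun q => (F q.1, F q.2), by
          rintro ⟨x, y⟩ ⟨x', y'⟩ he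
          simp only [Prod.mk.injEq] at he
          rw [hF he.1, hF he.2]⟩ := by
      rintro ⟨x, y⟩ hq
      rw [mem_filter, mem_product] at hq
      obtain ⟨t, t', h3, h4, h5⟩ := hG x y hq.2
      simp only at hq h3 h4
      subst h3
      subst h4
      rw [mem_map]
      refine ⟨(t, t'), ?_, rfl⟩
      rw [mem_filter, mem_product]
      exact ⟨⟨mem_preimage.2 hq.1.1, mem_preimage.2 hq.1.2⟩, h5⟩
    exact (card_le_card hsub).trans (card_map _).le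
  rcases T.eq_empty_or_nonempty with he | hTn
  · have h3 : ec G' T = 0 := by
      rw [he]
      simp [ec]
    have := hne.card_pos
    omega
  · have h3 := h T (fun t ht => hU t (hS _ (mem_preimage.1 ht))) hTn
    omega

/-- Gluing of two coloured forests. -/
theorem glue_step {r : ℕ} {U : Set V} {Γ1 Γ2 : V → V → Prop} {A1 A2 : Set V}
    (hA1 : ∀ x y, Γ1 x y → x ∈ A1 ∧ y ∈ A1) (hA2 : ∀ x y, Γ2 x y → x ∈ A2 ∧ y ∈ A2)
    (hs1 : ∀ x y, Γ1 x y → Γ1 y x) (hs2 : ∀ x y, Γ2 x y → Γ2 y x) (a b : V)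
    (hA : ∀ x, x ∈ A1 → x ∈ A2 → x = a ∨ x = b) (hab : a = b ∨ (Γ1 a b ∧ Γ2 a b))
    (k1 k2 : V → Fin r) (h1 : FoOn U fun x y => Γ1 x y ∧ k1 x = k1 y)
    (h2 : FoOn U fun x y => Γ2 x y ∧ k2 x = k2 y)
    (hpat : a ∈ U → b ∈ U → (k1 a = k1 b ↔ k2 a = k2 b)) :
    ∃ k : V → Fin r, FoOn U (fun x y => (Γ1 x y ∨ Γ2 x y) ∧ k x = k y) ∧
      (∀ x y, x ∈ U → y ∈ U → x ∈ A1 → y ∈ A1 → (k x = k y ↔ k1 x = k1 y)) ∧
      (∀ x y, x ∈ U → y ∈ U → x ∈ A2 → y ∈ A2 → (k x = k y ↔ k2 x = k2 y)) := by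
  classical
  have hσ : ∃ σ : Equiv.Perm (Fin r), (a ∈ U → k1 a = σ (k2 a)) ∧ (b ∈ U → k1 b = σ (k2 b)) := by
    by_cases ha : a ∈ U
    · by_cases hb : b ∈ U
      · obtain ⟨σ, h3, h4⟩ := exists_perm_two (k2 a) (k2 b) (k1 a) (k1 b) (hpat ha hb).symm
        exact ⟨σ, fun _ => h3.symm, fun _ => h4.symm⟩
      · exact ⟨Equiv.swap (k2 a) (k1 a), fun _ => (Equiv.swap_apply_left _ _).symm,
          fun h => (hb h).elim⟩
    · exact ⟨Equiv.swap (k2 b) (k1 b), fun h => (ha h).elim,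
        fun _ => (Equiv.swap_apply_left _ _).symm⟩
  obtain ⟨σ, hσa, hσb⟩ := hσ
  set k : V → Fin r := fun x => if x ∈ A1 then k1 x else σ (k2 x) with hk
  have e1 : ∀ x, x ∈ A1 → k x = k1 x := fun x hx => by rw [hk]; simp only [if_pos hx]
  have e2 : ∀ x, x ∈ U → x ∈ A2 → k x = σ (k2 x) := by
    intro x hxU hx
    by_cases hx1 : x ∈ A1
    · rw [e1 x hx1]
      rcases hA x hx1 hx with rfl | rfl
      · exact hσa hxU
      · exact hσb hxU
    · rw [hk]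
      simp only [if_neg hx1]
  have p1 : ∀ x y, x ∈ U → y ∈ U → x ∈ A1 → y ∈ A1 → (k x = k y ↔ k1 x = k1 y) := by
    intro x y _ _ hx hy
    rw [e1 x hx, e1 y hy]
  have p2 : ∀ x y, x ∈ U → y ∈ U → x ∈ A2 → y ∈ A2 → (k x = k y ↔ k2 x = k2 y) := by
    intro x y hxU hyU hx hy
    rw [e2 x hxU hx, e2 y hyU hy]
    exact σ.injective.eq_iff
  refine ⟨k, ?_, p1, p2⟩
  refine fo_glue k h1 h2 (fun x y h => hA1 x y h.1) (fun x y h => hA2 x y h.1)
    (fun x y h => ⟨hs1 x y h.1, h.2.symm⟩) (fun x y h => ⟨hs2 x y h.1, h.2.symm⟩) a b hA ?_ ?_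
    (fun x y h => h.2)
  · intro ha hb
    rcases hab with h3 | ⟨h3, h4⟩
    · exact Or.inl h3
    · by_cases h5 : k a = k b
      · exact Or.inr (Or.inr ⟨⟨h3, (p1 a b ha hb (hA1 _ _ h3).1 (hA1 _ _ h3).2).1 h5⟩,
          ⟨h4, (p2 a b ha hb (hA2 _ _ h4).1 (hA2 _ _ h4).2).1 h5⟩⟩)
      · exact Or.inr (Or.inl h5)
  · rintro x y hx hy ⟨h3 | h3, h4⟩
    · exact Or.inl ⟨h3, (p1 x y hx hy (hA1 _ _ h3).1 (hA1 _ _ h3).2).1 h4⟩
    · exact Or.inr ⟨h3, (p2 x y hx hy (hA2 _ _ h3).1 (hA2 _ _ h3).2).1 h4⟩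

/-- Bipartite graphs are good. -/
theorem pro_bip {r : ℕ} (hr : 2 ≤ r) (U : Set V) (Γ : V → V → Prop) (f : V → Bool)
    (h : ∀ x y, Γ x y → f x ≠ f y) (hs : ∀ x y, Γ x y → Γ y x) : PRo r U Γ := by
  classical
  set c : Bool → Fin r := fun e => if e = true then ⟨1, by omega⟩ else ⟨0, by omega⟩ with hc
  have hcinj : Injective c := by
    intro e e' he
    cases e <;> cases e' <;> simp [hc] at he ⊢
  have hne : ∀ x y, Γ x y → c (f x) ≠ c (f y) := fun x y hxy he => h x y hxy (hcinj he)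
  have h0 : FoOn U fun x y => Γ x y ∧ c (f x) = c (f y) := fo_empty fun x y hxy =>
    hne x y hxy.1 hxy.2
  refine ⟨⟨fun x => c (f x), h0⟩, fun u v hu hv huv e => ?_⟩
  cases e
  · refine ⟨fun x => c (f x), h0, ?_⟩
    simp only [Bool.false_eq_true, iff_false]
    exact hne u v huv
  · have huv' : u ≠ v := by
      rintro rfl
      exact h _ _ huv rfl
    refine ⟨update (fun x => c (f x)) v (c (f u)), fo_star (fun x y hxy => ⟨hs _ _ hxy.1,
      hxy.2.symm⟩) (fun x hx => h x x hx.1 rfl) v ?_, ?_⟩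
    · rintro x y ⟨hxy, he⟩
      by_contra hcon
      rw [not_or] at hcon
      rw [update_of_ne hcon.1, update_of_ne hcon.2] at he
      exact hne x y hxy he
    · simp only [iff_true]
      rw [update_self, update_of_ne huv']

/-- Bodies. -/
theorem pro_bod {δ : M → Y → V} {P : SimpleGraph Y} {r : ℕ} (hr : 2 ≤ r) (m : M)
    (hδ : Injective (δ m)) (U : Set V) (h : PRo r {t | δ m t ∈ U} fun t t' => P.Adj t t') :
    PRo r U (Bod δ P m) := by
  classical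
  have key : ∀ k' : Y → Fin r, (FoOn {t | δ m t ∈ U} fun t t' => P.Adj t t' ∧ k' t = k' t') →
      ∃ k : V → Fin r, (FoOn U fun x y => Bod δ P m x y ∧ k x = k y) ∧
        ∀ t, k (δ m t) = k' t := by
    intro k' hk'
    refine ⟨Function.extend (δ m) k' fun _ => ⟨0, by omega⟩, ?_, fun t => hδ.extend_apply _ _ t⟩
    refine hk'.map (δ m) hδ (fun t ht => ht) ?_
    rintro x y ⟨⟨t, t', rfl, rfl, h1⟩, h2⟩
    rw [hδ.extend_apply, hδ.extend_apply] at h2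
    exact ⟨t, t', rfl, rfl, h1, h2⟩
  obtain ⟨⟨k', hk'⟩, h2⟩ := h
  refine ⟨?_, ?_⟩
  · obtain ⟨k, hk, -⟩ := key k' hk'
    exact ⟨k, hk⟩
  · rintro u v hu hv ⟨t, t', rfl, rfl, h3⟩ e
    obtain ⟨k'', hk'', h4⟩ := h2 t t' hu hv h3 e
    obtain ⟨k, hk, h5⟩ := key k'' hk''
    exact ⟨k, hk, by rw [h5, h5]; exact h4⟩

/-- Row R7: tree graphs with good bodies are good. -/
theorem TD_pro {δ : M → Y → V} {P : SimpleGraph Y} (hδ : ∀ m, Injective (δ m)) {r : ℕ}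
    (hr : 2 ≤ r) {S : Set M} {Γ : V → V → Prop} {A : Set V} (h : TD δ P S Γ A) (U : Set V)
    (hb : ∀ m ∈ S, PRo r {t | δ m t ∈ U} fun t t' => P.Adj t t') : PRo r U Γ := by
  induction h with
  | bod m => exact pro_bod hr m (hδ m) U (hb m rfl)
  | bip Γ A f h hA hs => exact pro_bip hr U Γ f h hs
  | @glu S1 S2 Γ1 Γ2 A1 A2 a b h1 h2 hd hA hab ih1 ih2 =>
    have i1 := ih1 fun m hm => hb m (Or.inl hm)
    have i2 := ih2 fun m hm => hb m (Or.inr hm)
    -- a colouring of the second graph with the pattern of the first one at `a, b`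
    have m2 : ∀ k1 : V → Fin r, ∃ k2 : V → Fin r, (FoOn U fun x y => Γ2 x y ∧ k2 x = k2 y) ∧
        (a ∈ U → b ∈ U → (k1 a = k1 b ↔ k2 a = k2 b)) := by
      intro k1
      rcases hab with rfl | ⟨h3, h4⟩
      · obtain ⟨k2, hk2⟩ := i2.1
        exact ⟨k2, hk2, fun _ _ => by simp⟩
      · by_cases hU : a ∈ U ∧ b ∈ U
        · obtain ⟨k2, hk2, h5⟩ := i2.2 a b hU.1 hU.2 h4 (decide (k1 a = k1 b))
          exact ⟨k2, hk2, fun _ _ => by rw [h5, decide_eq_true_iff]⟩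
        · obtain ⟨k2, hk2⟩ := i2.1
          exact ⟨k2, hk2, fun ha hb => (hU ⟨ha, hb⟩).elim⟩
    have m1 : ∀ k2 : V → Fin r, ∃ k1 : V → Fin r, (FoOn U fun x y => Γ1 x y ∧ k1 x = k1 y) ∧
        (a ∈ U → b ∈ U → (k1 a = k1 b ↔ k2 a = k2 b)) := by
      intro k2
      rcases hab with rfl | ⟨h3, h4⟩
      · obtain ⟨k1, hk1⟩ := i1.1
        exact ⟨k1, hk1, fun _ _ => by simp⟩
      · by_cases hU : a ∈ U ∧ b ∈ U
        · obtain ⟨k1, hk1, h5⟩ := i1.2 a b hU.1 hU.2 h3 (decide (k2 a = k2 b))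
          exact ⟨k1, hk1, fun _ _ => by rw [h5, decide_eq_true_iff]⟩
        · obtain ⟨k1, hk1⟩ := i1.1
          exact ⟨k1, hk1, fun ha hb => (hU ⟨ha, hb⟩).elim⟩
    refine ⟨?_, ?_⟩
    · obtain ⟨k1, hk1⟩ := i1.1
      obtain ⟨k2, hk2, hp⟩ := m2 k1
      obtain ⟨k, hk, -, -⟩ := glue_step h1.mem h2.mem h1.symm h2.symm a b hA hab k1 k2 hk1 hk2 hp
      exact ⟨k, hk⟩
    · rintro u v hu hv (h3 | h3) e
      · obtain ⟨k1, hk1, h5⟩ := i1.2 u v hu hv h3 e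
        obtain ⟨k2, hk2, hp⟩ := m2 k1
        obtain ⟨k, hk, p1, -⟩ :=
          glue_step h1.mem h2.mem h1.symm h2.symm a b hA hab k1 k2 hk1 hk2 hp
        exact ⟨k, hk, (p1 u v hu hv (h1.mem _ _ h3).1 (h1.mem _ _ h3).2).trans h5⟩
      · obtain ⟨k2, hk2, h5⟩ := i2.2 u v hu hv h3 e
        obtain ⟨k1, hk1, hp⟩ := m1 k2
        obtain ⟨k, hk, -, p2⟩ :=
          glue_step h1.mem h2.mem h1.symm h2.symm a b hA hab k1 k2 hk1 hk2 hp
        exact ⟨k, hk, (p2 u v hu hv (h2.mem _ _ h3).1 (h2.mem _ _ h3).2).trans h5⟩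

end

end MP3240R21
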