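import Mathlib

/-!
# MP_3240be_co, T4 (findings 4835, 4844): rows R6 and the gluing of forests (helper21)

`Fo G`: every nonempty finite set `S` of vertices spans at most `|S| - 1` edges (counted as ordered
pairs).
-/

set_option autoImplicit false

namespace MP3240R21

open Finset Function

section
variable {V : Type}

open Classical in
/-- the number of ordered pairs of `G` inside `S` -/
noncomputable def ec (G : V → V → Prop) (S : Finset V) : ℕ :=
  ((S ×ˢ S).filter fun q => G q.1 q.2).card

/-- `G` is a forest on `U` -/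
def FoOn (U : Set V) (G : V → V → Prop) : Prop :=
  ∀ S : Finset V, (∀ x ∈ S, x ∈ U) → S.Nonempty → ec G S + 2 ≤ 2 * S.card

theorem ec_mono {G G' : V → V → Prop} {S : Finset V}
    (h : ∀ x ∈ S, ∀ y ∈ S, G x y → G' x y) : ec G S ≤ ec G' S := by
  classical
  unfold ec
  refine card_le_card fun q hq => ?_
  rw [mem_filter, mem_product] at hq ⊢
  exact ⟨hq.1, h _ hq.1.1 _ hq.1.2 hq.2⟩

/-- Forests may be tested on the classes of a colouring which is constant on edges. -/
theorem fo_of_mono {r : ℕ} {U : Set V} {G : V → V → Prop} (k : V → Fin r)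
    (hG : ∀ x y, G x y → k x = k y)
    (h : ∀ S : Finset V, (∀ x ∈ S, x ∈ U) → S.Nonempty → (∀ x ∈ S, ∀ y ∈ S, k x = k y) →
      ec G S + 2 ≤ 2 * S.card) : FoOn U G := by
  classical
  intro S hU hne
  have h1 : ec G S = ∑ c : Fin r, ec G (S.filter fun x => k x = c) := by
    unfold ec
    rw [Finset.card_eq_sum_card_fiberwise (f := fun q : V × V => k q.1) (t := univ)
      (fun _ _ => mem_coe.2 (mem_univ _))]
    refine sum_congr rfl fun c _ => congrArg card ?_
    ext q
    simp only [mem_filter, mem_product]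
    constructor
    · rintro ⟨⟨⟨a1, a2⟩, a3⟩, a4⟩
      exact ⟨⟨⟨a1, a4⟩, a2, (hG _ _ a3) ▸ a4⟩, a3⟩
    · rintro ⟨⟨⟨a1, a4⟩, a2, a5⟩, a3⟩
      exact ⟨⟨⟨a1, a2⟩, a3⟩, a4⟩
  have h2 : S.card = ∑ c : Fin r, (S.filter fun x => k x = c).card :=
    Finset.card_eq_sum_card_fiberwise (fun _ _ => mem_coe.2 (mem_univ _))
  have h4 : ∀ c : Fin r, (S.filter fun x => k x = c).Nonempty →
      ec G (S.filter fun x => k x = c) + 2 ≤ 2 * (S.filter fun x => k x = c).card := by
    intro c hc
    refine h _ (fun x hx => hU x (mem_filter.1 hx).1) hc fun x hx y hy => ?_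
    rw [(mem_filter.1 hx).2, (mem_filter.1 hy).2]
  have h3 : ∀ c : Fin r, ec G (S.filter fun x => k x = c) ≤
      2 * (S.filter fun x => k x = c).card := by
    intro c
    rcases (S.filter fun x => k x = c).eq_empty_or_nonempty with he | hc
    · rw [he]
      simp [ec]
    · have := h4 c hc
      omega
  obtain ⟨x0, hx0⟩ := hne
  have h5 := h4 (k x0) ⟨x0, by rw [mem_filter]; exact ⟨hx0, rfl⟩⟩
  have h6 : ∑ c ∈ univ.erase (k x0), ec G (S.filter fun x => k x = c) ≤
      ∑ c ∈ univ.erase (k x0), 2 * (S.filter fun x => k x = c).card :=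
    sum_le_sum fun c _ => h3 c
  rw [← Finset.mul_sum] at h6
  rw [← Finset.add_sum_erase _ _ (mem_univ (k x0))] at h1 h2
  omega

/-- Few vertices without triangle. -/
theorem ec_small {G : V → V → Prop} (hs : ∀ x y, G x y → G y x) (hi : ∀ x, ¬ G x x)
    {S : Finset V} (hne : S.Nonempty) (h3 : S.card ≤ 3)
    (hT : ∀ x ∈ S, ∀ y ∈ S, ∀ z ∈ S, G x y → G y z → ¬ G x z) : ec G S + 2 ≤ 2 * S.card := by
  classical
  have hpos := hne.card_pos
  have hc : S.card = 1 ∨ S.card = 2 ∨ S.card = 3 := by omega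
  rcases hc with hc | hc | hc
  · obtain ⟨a, rfl⟩ := card_eq_one.1 hc
    have : ec G {a} = 0 := by
      unfold ec
      rw [card_eq_zero, filter_eq_empty_iff]
      rintro ⟨x, y⟩ hq
      rw [mem_product, mem_singleton, mem_singleton] at hq
      obtain ⟨h1, h2⟩ := hq
      simp only at h1 h2
      subst h1
      subst h2
      exact hi _
    rw [this, hc]
  · obtain ⟨a, b, hab, rfl⟩ := card_eq_two.1 hc
    have : ec G {a, b} ≤ 2 := by
      have hsub : (({a, b} : Finset V) ×ˢ {a, b}).filter (fun q => G q.1 q.2) ⊆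
          {(a, b), (b, a)} := by
        rintro ⟨x, y⟩ hq
        simp only [mem_filter, mem_product, mem_insert, mem_singleton] at hq ⊢
        obtain ⟨⟨h1, h2⟩, h4⟩ := hq
        rcases h1 with rfl | rfl <;> rcases h2 with rfl | rfl
        · exact (hi _ h4).elim
        · exact Or.inl rfl
        · exact Or.inr rfl
        · exact (hi _ h4).elim
      exact (card_le_card hsub).trans card_le_two
    omega
  · obtain ⟨a, b, c, hab, hac, hbc, rfl⟩ := card_eq_three.1 hc
    have key : ∀ p q s : V, ({a, b, c} : Finset V) = {p, q, s} → ¬ G p q →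
        ec G ({a, b, c} : Finset V) ≤ 4 := by
      intro p q s he hpq
      rw [he]
      have hqp : ¬ G q p := fun h => hpq (hs _ _ h)
      have hsub : (({p, q, s} : Finset V) ×ˢ {p, q, s}).filter (fun q => G q.1 q.2) ⊆
          {(p, s), (s, p), (q, s), (s, q)} := by
        rintro ⟨x, y⟩ hq
        simp only [mem_filter, mem_product, mem_insert, mem_singleton] at hq ⊢
        obtain ⟨⟨h1, h2⟩, h3⟩ := hq
        rcases h1 with rfl | rfl | rfl <;> rcases h2 with rfl | rfl | rfl <;>
          first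
            | exact (hi _ h3).elim
            | exact (hpq h3).elim
            | exact (hqp h3).elim
            | exact Or.inl rfl
            | exact Or.inr (Or.inl rfl)
            | exact Or.inr (Or.inr (Or.inl rfl))
            | exact Or.inr (Or.inr (Or.inr rfl))
      exact (card_le_card hsub).trans card_le_four
    have : ec G ({a, b, c} : Finset V) ≤ 4 := by
      by_cases h1 : G a b
      · by_cases h2 : G b c
        · have h3' : ¬ G a c := hT a (by simp) b (by simp) c (by simp) h1 h2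
          exact key a c b (by ext x; simp; tauto) h3'
        · exact key b c a (by ext x; simp; tauto) h2
      · exact key a b c rfl h1
    omega

/-- Pendant vertices. -/
theorem ec_peel {G : V → V → Prop} (hs : ∀ x y, G x y → G y x) (hi : ∀ x, ¬ G x x)
    {S C : Finset V} (hne : S.Nonempty) (hCS : C ⊆ S) (h3 : C.card ≤ 3)
    (hT : ∀ x ∈ C, ∀ y ∈ C, ∀ z ∈ C, G x y → G y z → ¬ G x z)
    (hout : ∀ x ∈ S, x ∉ C → ∀ y ∈ S, G x y → y ∈ C)
    (huniq : ∀ x ∈ S, x ∉ C → ∀ y ∈ S, ∀ z ∈ S, G x y → G x z → y = z) :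
    ec G S + 2 ≤ 2 * S.card := by
  classical
  have h1 : ec G S ≤ ec G C + (((S \ C) ×ˢ S).filter fun q => G q.1 q.2).card +
      ((S ×ˢ (S \ C)).filter fun q => G q.1 q.2).card := by
    unfold ec
    have hsub : (S ×ˢ S).filter (fun q => G q.1 q.2) ⊆
        (C ×ˢ C).filter (fun q => G q.1 q.2) ∪ ((S \ C) ×ˢ S).filter (fun q => G q.1 q.2) ∪
          (S ×ˢ (S \ C)).filter (fun q => G q.1 q.2) := by
      rintro ⟨x, y⟩ hq
      simp only [mem_filter, mem_product, mem_union, mem_sdiff] at hq ⊢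
      tauto
    refine (card_le_card hsub).trans ((card_union_le _ _).trans ?_)
    exact Nat.add_le_add_right (card_union_le _ _) _
  have h2 : (((S \ C) ×ˢ S).filter fun q => G q.1 q.2).card ≤ (S \ C).card := by
    refine card_le_card_of_injOn Prod.fst ?_ ?_
    · rintro ⟨x, y⟩ hq
      have hq' := mem_coe.1 hq
      rw [mem_filter, mem_product] at hq'
      exact mem_coe.2 hq'.1.1
    · rintro ⟨x, y⟩ hq ⟨x', y'⟩ hq' he
      have h := mem_coe.1 hq
      have h' := mem_coe.1 hq'
      rw [mem_filter, mem_product, mem_sdiff] at h h'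
      simp only at h h' he
      subst he
      rw [huniq x h.1.1.1 h.1.1.2 y h.1.2 y' h'.1.2 h.2 h'.2]
  have h2' : ((S ×ˢ (S \ C)).filter fun q => G q.1 q.2).card ≤ (S \ C).card := by
    refine card_le_card_of_injOn Prod.snd ?_ ?_
    · rintro ⟨x, y⟩ hq
      have hq' := mem_coe.1 hq
      rw [mem_filter, mem_product] at hq'
      exact mem_coe.2 hq'.1.2
    · rintro ⟨x, y⟩ hq ⟨x', y'⟩ hq' he
      have h := mem_coe.1 hq
      have h' := mem_coe.1 hq'
      rw [mem_filter, mem_product, mem_sdiff] at h h'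
      simp only at h h' he
      subst he
      rw [huniq y h.1.2.1 h.1.2.2 x h.1.1 x' h'.1.1 (hs _ _ h.2) (hs _ _ h'.2)]
  have h5 : (S \ C).card + C.card = S.card := card_sdiff_add_card_eq_card hCS
  rcases C.eq_empty_or_nonempty with he | hC
  · subst he
    have : ec G S = 0 := by
      unfold ec
      rw [card_eq_zero, filter_eq_empty_iff]
      rintro ⟨x, y⟩ hq h
      rw [mem_product] at hq
      exact notMem_empty _ (hout x hq.1 (notMem_empty _) y hq.2 h)
    have := hne.card_pos
    omega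
  · have := ec_small hs hi hC h3 hT
    omega

/-- All edges are incident with one vertex. -/
theorem fo_star {U : Set V} {G : V → V → Prop} (hs : ∀ x y, G x y → G y x) (hi : ∀ x, ¬ G x x)
    (v : V) (h : ∀ x y, G x y → x = v ∨ y = v) : FoOn U G := by
  classical
  intro S _ hne
  refine ec_peel hs hi (C := S.filter fun x => x = v) hne (filter_subset _ _) ?_ ?_ ?_ ?_
  · refine (card_le_one.2 ?_).trans (by norm_num)
    intro a ha b hb
    rw [(mem_filter.1 ha).2, (mem_filter.1 hb).2]
  · intro x hx y hy z _ hxy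
    rw [(mem_filter.1 hx).2, (mem_filter.1 hy).2] at hxy
    exact (hi _ hxy).elim
  · intro x hx hxC y hy hxy
    rw [mem_filter] at hxC ⊢
    rcases h x y hxy with h1 | h1
    · exact (hxC ⟨hx, h1⟩).elim
    · exact ⟨hy, h1⟩
  · intro x hx hxC y hy z hz hxy hxz
    rw [mem_filter] at hxC
    have hxv : x ≠ v := fun h1 => hxC ⟨hx, h1⟩
    rw [(h x y hxy).resolve_left hxv, (h x z hxz).resolve_left hxv]

/-- No edges. -/
theorem fo_empty {U : Set V} {G : V → V → Prop} (h : ∀ x y, ¬ G x y) : FoOn U G := by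
  classical
  intro S _ hne
  have : ec G S = 0 := by
    unfold ec
    rw [card_eq_zero, filter_eq_empty_iff]
    exact fun q _ => h _ _
  have := hne.card_pos
  omega

/-- Restriction to a subgraph along an injective map. -/
theorem FoOn.comap {V' : Type} {U : Set V} {G : V → V → Prop} (h : FoOn U G) (F : V' → V)
    (hF : Injective F) {U' : Set V'} {G' : V' → V' → Prop} (hU : ∀ x ∈ U', F x ∈ U)
    (hG : ∀ x y, G' x y → G (F x) (F y)) : FoOn U' G' := by
  classical
  intro S hS hne
  have h1 := h (S.map ⟨F, hF⟩) (by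
    intro x hx
    obtain ⟨y, hy, rfl⟩ := mem_map.1 hx
    exact hU y (hS y hy)) (hne.map)
  rw [card_map] at h1
  have h2 : ec G' S ≤ ec G (S.map ⟨F, hF⟩) := by
    unfold ec
    refine card_le_card_of_injOn (fun q => (F q.1, F q.2)) ?_ ?_
    · rintro ⟨x, y⟩ hq
      have hq' := mem_coe.1 hq
      rw [mem_filter, mem_product] at hq'
      refine mem_coe.2 ?_
      rw [mem_filter, mem_product]
      exact ⟨⟨mem_map.2 ⟨x, hq'.1.1, rfl⟩, mem_map.2 ⟨y, hq'.1.2, rfl⟩⟩, hG _ _ hq'.2⟩
    · rintro ⟨x, y⟩ _ ⟨x', y'⟩ _ he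
      simp only [Prod.mk.injEq] at he
      rw [hF he.1, hF he.2]
  omega

/-- Gluing of two forests along a vertex or an edge. -/
theorem fo_glue {r : ℕ} {U : Set V} {G1 G2 : V → V → Prop} {A1 A2 : Set V} (k : V → Fin r)
    (h1 : FoOn U G1) (h2 : FoOn U G2)
    (hA1 : ∀ x y, G1 x y → x ∈ A1 ∧ y ∈ A1) (hA2 : ∀ x y, G2 x y → x ∈ A2 ∧ y ∈ A2)
    (hs1 : ∀ x y, G1 x y → G1 y x) (hs2 : ∀ x y, G2 x y → G2 y x) (a b : V)
    (hA : ∀ x, x ∈ A1 → x ∈ A2 → x = a ∨ x = b)
    (hab : a ∈ U → b ∈ U → a = b ∨ k a ≠ k b ∨ (G1 a b ∧ G2 a b))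
    {G : V → V → Prop} (hG : ∀ x y, x ∈ U → y ∈ U → G x y → G1 x y ∨ G2 x y)
    (hk : ∀ x y, G x y → k x = k y) : FoOn U G := by
  classical
  refine fo_of_mono k hk fun T hTU hne hmono => ?_
  set T1 := T.filter fun x => x ∈ A1 with hT1
  set T2 := T.filter fun x => x ∈ A2 with hT2
  set F1 := (T1 ×ˢ T1).filter fun q => G1 q.1 q.2 with hF1
  set F2 := (T2 ×ˢ T2).filter fun q => G2 q.1 q.2 with hF2
  have e1 : ec G1 T1 = F1.card := rfl
  have e2 : ec G2 T2 = F2.card := rfl
  have hsub : (T ×ˢ T).filter (fun q => G q.1 q.2) ⊆ F1 ∪ F2 := by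
    rintro ⟨x, y⟩ hq
    rw [mem_filter, mem_product] at hq
    rw [mem_union, hF1, hF2, mem_filter, mem_filter, mem_product, mem_product, hT1, hT2,
      mem_filter, mem_filter, mem_filter, mem_filter]
    rcases hG x y (hTU _ hq.1.1) (hTU _ hq.1.2) hq.2 with h | h
    · exact Or.inl ⟨⟨⟨hq.1.1, (hA1 _ _ h).1⟩, hq.1.2, (hA1 _ _ h).2⟩, h⟩
    · exact Or.inr ⟨⟨⟨hq.1.1, (hA2 _ _ h).1⟩, hq.1.2, (hA2 _ _ h).2⟩, h⟩
  have hE : ec G T + (F1 ∩ F2).card ≤ F1.card + F2.card := by
    have h3 : ec G T ≤ (F1 ∪ F2).card := card_le_card hsub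
    have h4 := card_union_add_card_inter F1 F2
    omega
  have hT12 : T1.card + T2.card ≤ T.card + (T1 ∩ T2).card := by
    have h3 := card_union_add_card_inter T1 T2
    have h4 : (T1 ∪ T2).card ≤ T.card :=
      card_le_card (union_subset (filter_subset _ _) (filter_subset _ _))
    omega
  have hsubab : T1 ∩ T2 ⊆ {a, b} := by
    intro x hx
    rw [mem_inter, hT1, hT2, mem_filter, mem_filter] at hx
    rw [mem_insert, mem_singleton]
    exact hA x hx.1.2 hx.2.2
  have hb1 : T1.Nonempty → F1.card + 2 ≤ 2 * T1.card := fun h3 =>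
    h1 T1 (fun x hx => hTU x (mem_filter.1 hx).1) h3
  have hb2 : T2.Nonempty → F2.card + 2 ≤ 2 * T2.card := fun h3 =>
    h2 T2 (fun x hx => hTU x (mem_filter.1 hx).1) h3
  have hz1 : ¬ T1.Nonempty → F1.card = 0 := by
    intro h3
    rw [not_nonempty_iff_eq_empty] at h3
    rw [hF1, h3]
    simp
  have hz2 : ¬ T2.Nonempty → F2.card = 0 := by
    intro h3
    rw [not_nonempty_iff_eq_empty] at h3
    rw [hF2, h3]
    simp
  have hpos := hne.card_pos
  have hT1T : T1.card ≤ T.card := card_le_card (filter_subset _ _)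
  have hT2T : T2.card ≤ T.card := card_le_card (filter_subset _ _)
  by_cases n1 : T1.Nonempty
  · by_cases n2 : T2.Nonempty
    · have b1 := hb1 n1
      have b2 := hb2 n2
      by_cases hcard : (T1 ∩ T2).card ≤ 1
      · omega
      · have hle : (T1 ∩ T2).card ≤ 2 := (card_le_card hsubab).trans card_le_two
        have habc : ({a, b} : Finset V).card = 2 := le_antisymm card_le_two (by
          have := card_le_card hsubab
          omega)
        have hne' : a ≠ b := by
          rintro rfl
          simp at habc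
        have heq : T1 ∩ T2 = {a, b} := eq_of_subset_of_card_le hsubab (by omega)
        have ha : a ∈ T1 ∩ T2 := by rw [heq]; simp
        have hb : b ∈ T1 ∩ T2 := by rw [heq]; simp
        rw [mem_inter] at ha hb
        have haT : a ∈ T := (mem_filter.1 ha.1).1
        have hbT : b ∈ T := (mem_filter.1 hb.1).1
        rcases hab (hTU a haT) (hTU b hbT) with h3 | h3 | ⟨h3, h4⟩
        · exact (hne' h3).elim
        · exact (h3 (hmono a haT b hbT)).elim
        · have hi2 : 2 ≤ (F1 ∩ F2).card := by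
            have hsub2 : ({(a, b), (b, a)} : Finset (V × V)) ⊆ F1 ∩ F2 := by
              intro q hq
              rw [mem_insert, mem_singleton] at hq
              rw [mem_inter, hF1, hF2, mem_filter, mem_filter, mem_product, mem_product]
              rcases hq with rfl | rfl
              · exact ⟨⟨⟨ha.1, hb.1⟩, h3⟩, ⟨ha.2, hb.2⟩, h4⟩
              · exact ⟨⟨⟨hb.1, ha.1⟩, hs1 _ _ h3⟩, ⟨hb.2, ha.2⟩, hs2 _ _ h4⟩
            have h5 : ({(a, b), (b, a)} : Finset (V × V)).card = 2 := by
              rw [card_pair]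
              intro h6
              rw [Prod.mk.injEq] at h6
              exact hne' h6.1
            have := card_le_card hsub2
            omega
          omega
    · have := hz2 n2
      have := hb1 n1
      omega
  · have := hz1 n1
    by_cases n2 : T2.Nonempty
    · have := hb2 n2
      omega
    · have := hz2 n2
      omega

/-- Two prescribed values of a permutation. -/
theorem exists_perm_two {r : ℕ} (x y x' y' : Fin r) (h : x = y ↔ x' = y') :
    ∃ σ : Equiv.Perm (Fin r), σ x = x' ∧ σ y = y' := by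
  by_cases hxy : x = y
  · have := h.1 hxy
    subst hxy
    subst this
    exact ⟨Equiv.swap x x', Equiv.swap_apply_left _ _, Equiv.swap_apply_left _ _⟩
  · have hx'y' : x' ≠ y' := fun h1 => hxy (h.2 h1)
    set z := Equiv.swap x x' y with hz
    have h1 : Equiv.swap x x' x = x' := Equiv.swap_apply_left _ _
    have hzx : x' ≠ z := by
      intro h2
      rw [← h1, hz] at h2
      exact hxy ((Equiv.swap x x').injective h2)
    refine ⟨(Equiv.swap x x').trans (Equiv.swap z y'), ?_, ?_⟩
    · rw [Equiv.trans_apply, h1]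
      exact Equiv.swap_apply_of_ne_of_ne hzx hx'y'
    · rw [Equiv.trans_apply, ← hz]
      exact Equiv.swap_apply_left _ _

end

end MP3240R21
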